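import Pool.Agent.H2.L.R_seed8.H261R2.CM.K6

/-! # Tuples of polynomials: common divisors -/

set_option autoImplicit false

namespace Pool.Agent.W5h6.HS

open Polynomial Filter MeasureTheory Topology Pool.Agent.H261R2.CM

noncomputable section

/-- every common divisor is a unit -/
def Cop {ι R : Type*} [CommSemiring R] (P : ι → R) : Prop := ∀ D : R, (∀ i, D ∣ P i) → IsUnit D

section alg

variable {R : Type*} [CommRing R] [IsDomain R] [UniqueFactorizationMonoid R]

theorem dvd_of_cop {ι : Type*} {A : ι → R} (hA : Cop A) {a x : R} (ha : a ≠ 0)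
    (h : ∀ i, a ∣ x * A i) : a ∣ x := by
  obtain ⟨a', x', c, hax, h1, h2⟩ := UniqueFactorizationMonoid.exists_reduced_factors a ha x
  have hc : c ≠ 0 := by
    rintro rfl
    rw [zero_mul] at h1
    exact ha h1.symm
  have h3 : ∀ i, a' ∣ A i := by
    intro i
    have h4 := h i
    rw [← h1, ← h2, mul_assoc] at h4
    have h5 : a' ∣ x' * A i := (mul_dvd_mul_iff_left hc).mp h4
    exact hax.dvd_of_dvd_mul_left h5
  have h6 : IsUnit a' := hA a' h3
  rw [← h1, ← h2]
  exact mul_dvd_mul_left c (h6.dvd)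

theorem dvd_of_pair {a x A B : R} (ha : a ≠ 0) (hAB : IsRelPrime A B) (h1 : a ∣ x * A)
    (h2 : a ∣ x * B) : a ∣ x := by
  have h : Cop (fun b : Bool => if b then A else B) := by
    intro D hD
    exact hAB (by simpa using hD true) (by simpa using hD false)
  refine dvd_of_cop h ha fun b => ?_
  cases b
  · simpa using h2
  · simpa using h1

/-- a family with a nonzero member is the product of a nonzero element and of a family without
common divisors -/
theorem exists_reduced {ι : Type*} [Fintype ι] (P : ι → R) (hP : ∃ i, P i ≠ 0) :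
    ∃ (G : R) (Q : ι → R), G ≠ 0 ∧ (∀ i, P i = G * Q i) ∧ Cop Q := by
  classical
  let _ : StrongNormalizationMonoid R := UniqueFactorizationMonoid.strongNormalizationMonoid
  let _ : NormalizedGCDMonoid R := UniqueFactorizationMonoid.toNormalizedGCDMonoid R
  obtain ⟨i0, hi0⟩ := hP
  obtain ⟨Q, h1, h2⟩ := Finset.extract_gcd P (s := Finset.univ) ⟨i0, Finset.mem_univ i0⟩
  refine ⟨Finset.univ.gcd P, Q, ?_, fun i => h1 i (Finset.mem_univ i), ?_⟩
  · intro h
    apply hi0
    rw [h1 i0 (Finset.mem_univ i0), h, zero_mul]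
  · intro D hD
    have h3 : D ∣ Finset.univ.gcd Q := Finset.dvd_gcd fun i _ => hD i
    rw [h2] at h3
    exact isUnit_of_dvd_one h3

end alg

/-- The common factor of the specialisations of a coprime pair. -/
theorem pair_lim {k : ℕ} (g r : MvPolynomial (Fin k) ℤ) (hg : g ≠ 0) (hr : r ≠ 0)
    (hgr : IsRelPrime g r) (𝒰 : Ultrafilter ℕ) (e : ℕ → Fin k → ℕ)
    (he : AsympIndep (𝒰 : Filter ℕ) e) :
    ∃ Q A B : ℕ → ℤ[X], (∀ᶠ n in (𝒰 : Filter ℕ), Q n ≠ 0 ∧ IsRelPrime (A n) (B n) ∧
      spec (e n) g = Q n * A n ∧ spec (e n) r = Q n * B n) ∧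
      Tendsto (fun n => Real.log (m1 (Q n))) (𝒰 : Filter ℕ) (𝓝 0) := by
  classical
  have hex : ∀ n, ∃ A B : ℤ[X], A ≠ 0 ∧ B ≠ 0 ∧ IsRelPrime A B ∧
      (spec (e n) g ≠ 0 → spec (e n) r ≠ 0 → spec (e n) r * A = spec (e n) g * B) := by
    intro n
    by_cases h1 : spec (e n) g ≠ 0 ∧ spec (e n) r ≠ 0
    · obtain ⟨A, B, Q, hAB, hA, hB⟩ := UniqueFactorizationMonoid.exists_reduced_factors
        (spec (e n) g) h1.1 (spec (e n) r)
      refine ⟨A, B, ?_, ?_, hAB, fun _ _ => ?_⟩
      · rintro rfl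
        exact h1.1 (by rw [← hA, mul_zero])
      · rintro rfl
        exact h1.2 (by rw [← hB, mul_zero])
      · rw [← hA, ← hB]
        ring
    · exact ⟨1, 1, one_ne_zero, one_ne_zero, isRelPrime_one_left, fun h2 h3 => absurd ⟨h2, h3⟩ h1⟩
  choose A B hA hB hAB hrel using hex
  have hrel' : ∀ᶠ n in (𝒰 : Filter ℕ), spec (e n) r * A n = spec (e n) g * B n := by
    filter_upwards [spec_ne_zero _ e he g hg, spec_ne_zero _ e he r hr] with n h1 h2
    exact hrel n h1 h2
  obtain ⟨Q, hQ, hlim⟩ := limit_general g r hg hr hgr 𝒰 e he A B hA hB hAB hrel'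
  exact ⟨Q, A, B, hQ.mono fun n hn => ⟨hn.1, hAB n, hn.2.1, hn.2.2⟩, hlim⟩

theorem common_step {k : ℕ} {ι : Type} [DecidableEq ι] (R : ι → MvPolynomial (Fin k) ℤ)
    (𝒰 : Ultrafilter ℕ) (e : ℕ → Fin k → ℕ) (he : AsympIndep (𝒰 : Filter ℕ) e) (s : Finset ι) :
    (∀ i ∈ s, R i = 0) ∨ ∃ G : MvPolynomial (Fin k) ℤ, G ≠ 0 ∧ (∀ i ∈ s, G ∣ R i) ∧
      ∀ Q : ℕ → ℤ[X], (∀ᶠ n in (𝒰 : Filter ℕ), ∀ i ∈ s, Q n ∣ spec (e n) (R i)) →
        ∃ T : ℕ → ℤ[X], (∀ᶠ n in (𝒰 : Filter ℕ), T n ≠ 0 ∧ Q n ∣ spec (e n) G * T n) ∧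
          Tendsto (fun n => Real.log (m1 (T n))) (𝒰 : Filter ℕ) (𝓝 0) := by
  induction s using Finset.induction_on with
  | empty => exact Or.inl (by simp)
  | insert j s hj ih =>
    have hm1 : m1 (1 : ℤ[X]) = 1 := by simp [m1, toC]
    rcases ih with h0 | ⟨G, hG, hdiv, hT⟩
    · by_cases hRj : R j = 0
      · left
        intro i hi
        rcases Finset.mem_insert.mp hi with rfl | hi
        · exact hRj
        · exact h0 i hi
      · right
        refine ⟨R j, hRj, ?_, ?_⟩
        · intro i hi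
          rcases Finset.mem_insert.mp hi with rfl | hi
          · exact dvd_rfl
          · rw [h0 i hi]
            exact dvd_zero _
        · intro Q hQ
          refine ⟨fun _ => 1, ?_, ?_⟩
          · filter_upwards [hQ] with n hn
            exact ⟨one_ne_zero, by rw [mul_one]; exact hn j (Finset.mem_insert_self j s)⟩
          · simp only [hm1, Real.log_one]
            exact tendsto_const_nhds
    · right
      by_cases hRj : R j = 0
      · refine ⟨G, hG, ?_, ?_⟩
        · intro i hi
          rcases Finset.mem_insert.mp hi with rfl | hi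
          · rw [hRj]
            exact dvd_zero _
          · exact hdiv i hi
        · intro Q hQ
          exact hT Q (hQ.mono fun n hn i hi => hn i (Finset.mem_insert_of_mem hi))
      · obtain ⟨g, r, c, hgr, h1, h2⟩ := UniqueFactorizationMonoid.exists_reduced_factors G hG (R j)
        have hc : c ≠ 0 := by
          rintro rfl
          rw [zero_mul] at h1
          exact hG h1.symm
        have hg : g ≠ 0 := by
          rintro rfl
          rw [mul_zero] at h1
          exact hG h1.symm
        have hr : r ≠ 0 := by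
          rintro rfl
          rw [mul_zero] at h2
          exact hRj h2.symm
        refine ⟨c, hc, ?_, ?_⟩
        · intro i hi
          rcases Finset.mem_insert.mp hi with rfl | hi
          · exact ⟨r, h2.symm⟩
          · exact dvd_trans ⟨g, h1.symm⟩ (hdiv i hi)
        · intro Q hQ
          obtain ⟨T, hT1, hT2⟩ := hT Q (hQ.mono fun n hn i hi => hn i (Finset.mem_insert_of_mem hi))
          obtain ⟨Q', A, B, hP1, hP2⟩ := pair_lim g r hg hr hgr 𝒰 e he
          have hsG := spec_ne_zero _ e he G hG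
          refine ⟨fun n => T n * Q' n, ?_, ?_⟩
          · filter_upwards [hQ, hT1, hP1, hsG] with n hn1 hn2 hn3 hn4
            refine ⟨mul_ne_zero hn2.1 hn3.1, ?_⟩
            have hQ0 : Q n ≠ 0 := by
              intro h0
              have h3 := hn2.2
              rw [h0] at h3
              exact (mul_ne_zero hn4 hn2.1) (zero_dvd_iff.mp h3)
            refine dvd_of_pair hQ0 hn3.2.1 ?_ ?_
            · have h3 := hn2.2
              rw [← h1, map_mul, hn3.2.2.1] at h3
              refine dvd_trans h3 (dvd_of_eq ?_)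
              ring
            · have h3 := hn1 j (Finset.mem_insert_self j s)
              rw [← h2, map_mul, hn3.2.2.2] at h3
              refine dvd_trans h3 ⟨T n, ?_⟩
              ring
          · have h3 := hT2.add hP2
            rw [add_zero] at h3
            refine h3.congr' ?_
            filter_upwards [hT1, hP1] with n hn2 hn3
            have h4 : 0 < m1 (T n) := lt_of_lt_of_le one_pos (I1_one_le_m1 hn2.1)
            have h5 : 0 < m1 (Q' n) := lt_of_lt_of_le one_pos (I1_one_le_m1 hn3.1)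
            rw [I1_m1_mul, Real.log_mul h4.ne' h5.ne']

/-- Common divisors of the specialisations of a family without common divisors have measures
tending to one. -/
theorem common_lim {k : ℕ} {ι : Type} [Fintype ι] (R : ι → MvPolynomial (Fin k) ℤ) (hR : Cop R)
    (𝒰 : Ultrafilter ℕ) (e : ℕ → Fin k → ℕ) (he : AsympIndep (𝒰 : Filter ℕ) e) (Q : ℕ → ℤ[X])
    (hQ : ∀ᶠ n in (𝒰 : Filter ℕ), ∀ i, Q n ∣ spec (e n) (R i)) :
    Tendsto (fun n => Real.log (m1 (Q n))) (𝒰 : Filter ℕ) (𝓝 0) := by
  classical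
  rcases common_step R 𝒰 e he Finset.univ with h0 | ⟨G, hG, hdiv, hT⟩
  · exfalso
    have h1 : IsUnit (0 : MvPolynomial (Fin k) ℤ) := hR 0 fun i => by
      rw [h0 i (Finset.mem_univ i)]
    exact not_isUnit_zero h1
  · have hGu : IsUnit G := hR G fun i => hdiv i (Finset.mem_univ i)
    obtain ⟨T, hT1, hT2⟩ := hT Q (hQ.mono fun n hn i _ => hn i)
    have hle : ∀ᶠ n in (𝒰 : Filter ℕ), 0 ≤ Real.log (m1 (Q n)) ∧
        Real.log (m1 (Q n)) ≤ Real.log (m1 (T n)) := by
      filter_upwards [hT1] with n hn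
      have hu : IsUnit (spec (e n) G) := hGu.map (spec (e n))
      have h1 : Q n ∣ T n := (hu.dvd_mul_left).mp hn.2
      obtain ⟨W, hW⟩ := h1
      have hQ0 : Q n ≠ 0 := by
        rintro h0
        rw [h0, zero_mul] at hW
        exact hn.1 hW
      have hW0 : W ≠ 0 := by
        rintro rfl
        rw [mul_zero] at hW
        exact hn.1 hW
      have h2 := I1_one_le_m1 hQ0
      have h3 := I1_one_le_m1 hW0
      refine ⟨Real.log_nonneg h2, ?_⟩
      refine Real.log_le_log (by linarith) ?_
      rw [hW, I1_m1_mul]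
      nlinarith
    exact tendsto_of_tendsto_of_tendsto_of_le_of_le' tendsto_const_nhds hT2
      (hle.mono fun n hn => hn.1) (hle.mono fun n hn => hn.2)

end

end Pool.Agent.W5h6.HS
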