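import Pool.Agent.H2.L.R_pool_sql_team_seeded_9f66d723.W5h6.HS.Lim

/-! # Compactness of coprime tuples of bounded height -/

set_option autoImplicit false

namespace Pool.Agent.W5h6.HS

open Polynomial Filter MeasureTheory Topology Pool.Agent.H261R2.CM

noncomputable section

/-- A positive basis of the group generated by finitely many sequences of exponents. -/
theorem common_exponents {σ : Type} [Fintype σ] (f : σ → ℕ → ℕ) :
    ∃ (k : ℕ) (e : ℕ → Fin k → ℕ) (a : σ → Fin k → ℤ), 1 ≤ k ∧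
      AsympIndep (hyperfilter ℕ : Filter ℕ) e ∧
      ∀ᶠ n in (hyperfilter ℕ : Filter ℕ), ∀ j, (f j n : ℤ) = ∑ i, a j i * (e n i : ℤ) := by
  classical
  set γ : σ → Gam := fun j => ((fun n => (f j n : ℤ) : ℕ → ℤ) : Gam) with hγ
  obtain ⟨k, b, a, hk, hbpos, hind, hspan⟩ := TG.exists_pos_basis (Finset.univ.image γ)
  set e : ℕ → Fin k → ℕ := fun n i => (rep (b i) n).toNat with he
  have hev_e : ∀ᶠ n in (hyperfilter ℕ : Filter ℕ), ∀ i, (e n i : ℤ) = rep (b i) n := by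
    rw [Filter.eventually_all]
    intro i
    have h1 : (0 : Gam) < ((rep (b i) : ℕ → ℤ) : Gam) := by
      rw [TG.rep_spec]
      exact hbpos i
    have h2 := (Filter.Germ.coe_pos (φ := hyperfilter ℕ) (f := rep (b i))).1 h1
    filter_upwards [h2] with n hn
    simp only [he]
    exact Int.toNat_of_nonneg hn.le
  have hAI : AsympIndep (hyperfilter ℕ : Filter ℕ) e := by
    intro s hs
    rw [Ultrafilter.eventually_not]
    intro h0
    apply hs
    apply hind s
    rw [TG.rel_zero]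
    filter_upwards [h0, hev_e] with n h0 h1
    rw [← h0]
    exact Finset.sum_congr rfl fun i _ => by rw [h1 i]
  refine ⟨k, e, fun j => a (γ j), hk, hAI, ?_⟩
  rw [Filter.eventually_all]
  intro j
  have h1 := (TG.rel_iff b (a (γ j)) (γ j)).1 (hspan (γ j) (Finset.mem_image_of_mem _ (Finset.mem_univ j)))
  have h2 : ∀ᶠ n in (hyperfilter ℕ : Filter ℕ), rep (γ j) n = (f j n : ℤ) := by
    have h3 : ((rep (γ j) : ℕ → ℤ) : Gam) = ((fun n => (f j n : ℤ) : ℕ → ℤ) : Gam) := TG.rep_spec (γ j)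
    exact Filter.Germ.coe_eq.1 h3
  filter_upwards [h1, h2, hev_e] with n h3 h4 h5
  rw [← h4, ← h3]
  exact Finset.sum_congr rfl fun i _ => by rw [h5 i]

/-- substitution of monomials with integral exponents, shifted by `M` -/
def subst {p k : ℕ} (a : Fin p → Fin k → ℤ) (M : ℕ) (N : MvPolynomial (Fin p) ℤ) :
    MvPolynomial (Fin k) ℤ :=
  ∑ s ∈ N.support, MvPolynomial.monomial
    (Finsupp.equivFunOnFinite.symm fun l => ((M : ℤ) + ∑ i, (s i : ℤ) * a i l).toNat) (N.coeff s)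

theorem spec_subst {p k : ℕ} (a : Fin p → Fin k → ℤ) (M : ℕ) (N : MvPolynomial (Fin p) ℤ)
    (hM : ∀ s ∈ N.support, ∀ l, 0 ≤ (M : ℤ) + ∑ i, (s i : ℤ) * a i l) (f : Fin p → ℕ)
    (e : Fin k → ℕ) (hf : ∀ i, (f i : ℤ) = ∑ l, a i l * (e l : ℤ)) :
    spec e (subst a M N) = X ^ (M * ∑ l, e l) * spec f N := by
  unfold subst
  rw [map_sum, F_spec_eq f N, Finset.mul_sum]
  refine Finset.sum_congr rfl fun s hs => ?_
  rw [TG.spec_monomial]
  have h1 : ∑ l, (Finsupp.equivFunOnFinite.symm fun l => ((M : ℤ) + ∑ i, (s i : ℤ) * a i l).toNat :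
      Fin k →₀ ℕ) l * e l = M * (∑ l, e l) + ∑ i, s i * f i := by
    have h2 : ((∑ l, (Finsupp.equivFunOnFinite.symm fun l => ((M : ℤ) + ∑ i, (s i : ℤ) * a i l).toNat :
      Fin k →₀ ℕ) l * e l : ℕ) : ℤ) = ((M * (∑ l, e l) + ∑ i, s i * f i : ℕ) : ℤ) := by
      push_cast
      simp only [Finsupp.equivFunOnFinite_symm_apply_apply]
      have h3 : ∀ l, (((((M : ℤ) + ∑ i, (s i : ℤ) * a i l).toNat : ℕ) : ℤ)) =
          (M : ℤ) + ∑ i, (s i : ℤ) * a i l := fun l => Int.toNat_of_nonneg (hM s hs l)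
      simp only [h3, add_mul, Finset.sum_add_distrib, Finset.mul_sum, hf]
      congr 1
      simp only [Finset.sum_mul]
      rw [Finset.sum_comm]
      refine Finset.sum_congr rfl fun i _ => Finset.sum_congr rfl fun l _ => by ring
    exact_mod_cast h2
  rw [h1, pow_add]
  ring

theorem exists_shift {p k : ℕ} (a : Fin p → Fin k → ℤ) (N : MvPolynomial (Fin p) ℤ) :
    ∃ M₀ : ℕ, ∀ M : ℕ, M₀ ≤ M → ∀ s ∈ N.support, ∀ l, 0 ≤ (M : ℤ) + ∑ i, (s i : ℤ) * a i l := by
  refine ⟨∑ s ∈ N.support, ∑ l, (∑ i, (s i : ℤ) * a i l).natAbs, fun M hM s hs l => ?_⟩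
  have h1 : (∑ i, (s i : ℤ) * a i l).natAbs ≤ ∑ l, (∑ i, (s i : ℤ) * a i l).natAbs :=
    Finset.single_le_sum (f := fun l => (∑ i, (s i : ℤ) * a i l).natAbs) (fun _ _ => Nat.zero_le _)
      (Finset.mem_univ l)
  have h2 : (∑ l, (∑ i, (s i : ℤ) * a i l).natAbs) ≤
      ∑ s ∈ N.support, ∑ l, (∑ i, (s i : ℤ) * a i l).natAbs :=
    Finset.single_le_sum (f := fun s : Fin p →₀ ℕ => ∑ l, (∑ i, (s i : ℤ) * a i l).natAbs)
      (fun _ _ => Nat.zero_le _) hs
  omega

variable {ι : Type} [Fintype ι]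

/-- Compactness for coprime tuples whose pairs have bounded heights. -/
theorem tuple_compact (A : ℕ → ι → ℤ[X]) (hA : ∀ n, Cop (A n)) (K : ℝ)
    (hK : ∀ n i j, A n i ≠ 0 → A n j ≠ 0 → mx1 (A n i) (A n j) ≤ K) :
    ∃ (k : ℕ) (e : ℕ → Fin k → ℕ) (R : ι → MvPolynomial (Fin k) ℤ), 1 ≤ k ∧ Cop R ∧
      AsympIndep (hyperfilter ℕ : Filter ℕ) e ∧
      ∀ᶠ n in (hyperfilter ℕ : Filter ℕ), ∀ i j,
        spec (e n) (R i) * A n j = spec (e n) (R j) * A n i := by
  classical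
  -- an index at which the tuples are not zero
  have hex0 : ∃ i0, ∀ᶠ n in (hyperfilter ℕ : Filter ℕ), A n i0 ≠ 0 := by
    by_contra hcon
    have h1 : ∀ i, ∀ᶠ n in (hyperfilter ℕ : Filter ℕ), A n i = 0 := by
      intro i
      have h2 : ¬ ∀ᶠ n in (hyperfilter ℕ : Filter ℕ), A n i ≠ 0 := fun h2 => hcon ⟨i, h2⟩
      have h3 : ∀ᶠ n in (hyperfilter ℕ : Filter ℕ), ¬ (A n i ≠ 0) := by
        rw [Ultrafilter.eventually_not]
        exact h2
      exact h3.mono fun n hn => not_not.mp hn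
    have h2 : ∀ᶠ n in (hyperfilter ℕ : Filter ℕ), ∀ i, A n i = 0 := Filter.eventually_all.2 h1
    obtain ⟨n, hn⟩ := h2.exists
    obtain ⟨i, hi⟩ := (hA n).exists_ne
    exact hi (hn i)
  obtain ⟨i0, hi0⟩ := hex0
  -- the relations of the pairs
  have hpair : ∀ j, ∃ (p : ℕ) (f : ℕ → Fin p → ℕ) (N E : MvPolynomial (Fin p) ℤ),
      ∀ᶠ n in (hyperfilter ℕ : Filter ℕ), spec (f n) E ≠ 0 ∧
        spec (f n) N * A n i0 = spec (f n) E * A n j := by
    intro j
    by_cases hj : ∀ᶠ n in (hyperfilter ℕ : Filter ℕ), A n j ≠ 0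
    · have hred : ∀ n, ∃ a b : ℤ[X], a ≠ 0 ∧ b ≠ 0 ∧ IsRelPrime a b ∧ mx1 a b ≤ max K 0 ∧
          (A n i0 ≠ 0 → A n j ≠ 0 → ∃ g, A n i0 = g * a ∧ A n j = g * b) := by
        intro n
        by_cases h1 : A n i0 ≠ 0 ∧ A n j ≠ 0
        · obtain ⟨a, b, g, hab, h2, h3⟩ := UniqueFactorizationMonoid.exists_reduced_factors
            (A n i0) h1.1 (A n j)
          have ha : a ≠ 0 := by
            rintro rfl
            exact h1.1 (by rw [← h2, mul_zero])
          have hb : b ≠ 0 := by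
            rintro rfl
            exact h1.2 (by rw [← h3, mul_zero])
          have hg : g ≠ 0 := by
            rintro rfl
            exact h1.1 (by rw [← h2, zero_mul])
          refine ⟨a, b, ha, hb, hab, ?_, fun _ _ => ⟨g, h2.symm, h3.symm⟩⟩
          have h4 := mx1_mul g a b hg ha
          rw [h2, h3] at h4
          have h5 := hK n i0 j h1.1 h1.2
          have h6 := Real.log_nonneg (I1_one_le_m1 hg)
          have h7 := le_max_left K 0
          linarith
        · refine ⟨1, 1, one_ne_zero, one_ne_zero, isRelPrime_one_left, ?_,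
            fun h2 h3 => absurd ⟨h2, h3⟩ h1⟩
          have h8 : mx1 (1 : ℤ[X]) 1 = 0 := by
            unfold mx1
            have h9 : ∀ t, ev1 (1 : ℤ[X]) t = 1 := fun t => by simp [ev1, toC]
            simp [h9]
          rw [h8]
          exact le_max_right _ _
      choose a b ha hb hab hmx hg using hred
      obtain ⟨p, f, C, D, _, _, hD, _, hf, hrel, _, _⟩ := pairs_compact_general a b ha hb hab
        (max K 0) hmx
      -- `D a = C b`
      have hC : C ≠ 0 := by assumption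
      refine ⟨p, f, D, C, ?_⟩
      filter_upwards [spec_ne_zero _ f hf C hC, hrel, hi0, hj] with n h1 h2 h3 h4
      refine ⟨h1, ?_⟩
      obtain ⟨g, h5, h6⟩ := hg n h3 h4
      rw [h5, h6]
      calc spec (f n) D * (g * a n) = g * (spec (f n) D * a n) := by ring
        _ = g * (spec (f n) C * b n) := by rw [h2]
        _ = _ := by ring
    · have hj' : ∀ᶠ n in (hyperfilter ℕ : Filter ℕ), ¬ (A n j ≠ 0) := by
        rw [Ultrafilter.eventually_not]
        exact hj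
      refine ⟨0, fun _ _ => 0, 0, 1, ?_⟩
      filter_upwards [hj'] with n hn
      rw [not_not] at hn
      exact ⟨by rw [map_one]; exact one_ne_zero, by rw [hn, map_zero, zero_mul, mul_zero]⟩
  choose p f N E hNE using hpair
  -- common exponents
  obtain ⟨k, e, a, hk, he, hcoord⟩ := common_exponents
    (σ := Σ j : ι, Fin (p j)) (fun x n => f x.1 n x.2)
  have hshift : ∀ j, ∃ M : ℕ,
      (∀ s ∈ (N j).support, ∀ l, 0 ≤ (M : ℤ) + ∑ i, (s i : ℤ) * a ⟨j, i⟩ l) ∧
      (∀ s ∈ (E j).support, ∀ l, 0 ≤ (M : ℤ) + ∑ i, (s i : ℤ) * a ⟨j, i⟩ l) := by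
    intro j
    obtain ⟨M1, h1⟩ := exists_shift (fun i => a ⟨j, i⟩) (N j)
    obtain ⟨M2, h2⟩ := exists_shift (fun i => a ⟨j, i⟩) (E j)
    exact ⟨max M1 M2, h1 _ (le_max_left _ _), h2 _ (le_max_right _ _)⟩
  choose M hMN hME using hshift
  set N' : ι → MvPolynomial (Fin k) ℤ := fun j => subst (fun i => a ⟨j, i⟩) (M j) (N j) with hN'
  set E' : ι → MvPolynomial (Fin k) ℤ := fun j => subst (fun i => a ⟨j, i⟩) (M j) (E j) with hE'
  have hspec : ∀ᶠ n in (hyperfilter ℕ : Filter ℕ), ∀ j, spec (e n) (E' j) ≠ 0 ∧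
      spec (e n) (N' j) * A n i0 = spec (e n) (E' j) * A n j := by
    rw [Filter.eventually_all]
    intro j
    filter_upwards [hNE j, hcoord] with n h1 h2
    have h3 : spec (e n) (N' j) = X ^ (M j * ∑ l, e n l) * spec (f j n) (N j) :=
      spec_subst _ _ _ (hMN j) _ _ fun i => h2 ⟨j, i⟩
    have h4 : spec (e n) (E' j) = X ^ (M j * ∑ l, e n l) * spec (f j n) (E j) :=
      spec_subst _ _ _ (hME j) _ _ fun i => h2 ⟨j, i⟩
    constructor
    · rw [h4]
      exact mul_ne_zero (pow_ne_zero _ Polynomial.X_ne_zero) h1.1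
    · rw [h3, h4, mul_assoc, mul_assoc, h1.2]
  have hE0 : ∀ j, E' j ≠ 0 := by
    intro j h0
    obtain ⟨n, hn⟩ := hspec.exists
    exact (hn j).1 (by rw [h0, map_zero])
  -- the tuple
  set S : ι → MvPolynomial (Fin k) ℤ := fun j => N' j * ∏ l ∈ Finset.univ.erase j, E' l with hS
  have hSrel : ∀ᶠ n in (hyperfilter ℕ : Filter ℕ), ∀ j,
      spec (e n) (S j) * A n i0 = spec (e n) (∏ l, E' l) * A n j := by
    filter_upwards [hspec] with n hn j
    rw [hS]
    simp only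
    rw [← Finset.mul_prod_erase Finset.univ E' (Finset.mem_univ j), map_mul, map_mul]
    have h1 := (hn j).2
    calc spec (e n) (N' j) * spec (e n) (∏ l ∈ Finset.univ.erase j, E' l) * A n i0
        = (spec (e n) (N' j) * A n i0) * spec (e n) (∏ l ∈ Finset.univ.erase j, E' l) := by ring
      _ = (spec (e n) (E' j) * A n j) * spec (e n) (∏ l ∈ Finset.univ.erase j, E' l) := by rw [h1]
      _ = _ := by ring
  have hprod0 : (∏ l, E' l) ≠ 0 := Finset.prod_ne_zero_iff.mpr fun j _ => hE0 j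
  have hSne : S i0 ≠ 0 := by
    intro h0
    obtain ⟨n, hn1, hn2, hn3⟩ := (hSrel.and ((spec_ne_zero _ e he _ hprod0).and hi0)).exists
    have h1 := hn1 i0
    rw [h0, map_zero, zero_mul] at h1
    exact (mul_ne_zero hn2 hn3) h1.symm
  obtain ⟨G, R, hG, hGR, hR⟩ := exists_reduced S ⟨i0, hSne⟩
  refine ⟨k, e, R, hk, hR, he, ?_⟩
  filter_upwards [hSrel, spec_ne_zero _ e he G hG, hi0] with n h1 h2 h3 i j
  have h4 : spec (e n) (S i) * A n j = spec (e n) (S j) * A n i := by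
    apply mul_right_cancel₀ h3
    have h5 := h1 i
    have h6 := h1 j
    calc spec (e n) (S i) * A n j * A n i0 = (spec (e n) (S i) * A n i0) * A n j := by ring
      _ = (spec (e n) (∏ l, E' l) * A n i) * A n j := by rw [h5]
      _ = (spec (e n) (∏ l, E' l) * A n j) * A n i := by ring
      _ = (spec (e n) (S j) * A n i0) * A n i := by rw [h6]
      _ = _ := by ring
  rw [hGR i, hGR j, map_mul, map_mul, mul_assoc, mul_assoc] at h4
  exact mul_left_cancel₀ h2 h4

/-- The measures of the values of `Φ` at coprime tuples. -/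
def SF (Φ : MvPolynomial (ι ⊕ ι) ℤ) : Set ℝ :=
  {x : ℝ | ∃ k : ℕ, 1 ≤ k ∧ ∃ P : ι → MvPolynomial (Fin k) ℤ, Cop P ∧ x = mM (Fk Φ P)}

theorem closed_SF [Nonempty ι] (Φ : MvPolynomial (ι ⊕ ι) ℤ) {a b : ℕ} (h : BiHom Φ a b)
    (hE : Ell Φ) (hab : 0 < a + b) : IsClosed (SF Φ) := by
  refine IsSeqClosed.isClosed ?_
  intro x μ hx hlim
  choose k hk P hP hxP using hx
  have happ : ∀ n, ∃ A : ι → ℤ[X], Cop A ∧ |m1 (F1 Φ A) - mM (Fk Φ (P n))| < 1 / ((n : ℝ) + 1) :=
    fun n => approx_tuple Φ h hE (P n) (hP n) _ (by positivity)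
  choose A hA h1 using happ
  have hlim1 : Tendsto (fun n => m1 (F1 Φ (A n))) atTop (𝓝 μ) := by
    have h3 : Tendsto (fun n => m1 (F1 Φ (A n)) - mM (Fk Φ (P n))) atTop (𝓝 0) := by
      refine squeeze_zero_norm (fun n => ?_) tendsto_one_div_add_atTop_nhds_zero_nat
      rw [Real.norm_eq_abs]
      exact (h1 n).le
    have h4 : Tendsto (fun n => mM (Fk Φ (P n))) atTop (𝓝 μ) := hlim.congr fun n => hxP n
    have h5 := h3.add h4
    simp only [sub_add_cancel, zero_add] at h5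
    exact h5
  obtain ⟨B, hB⟩ := hlim1.bddAbove_range
  obtain ⟨C, hC⟩ := mx1_le Φ h hE hab
  have hm : (0 : ℝ) < ((a + b : ℕ) : ℝ) := by exact_mod_cast hab
  obtain ⟨k', e, R, hk', hR, he, hrel⟩ := tuple_compact A hA
    (C + Real.log B / ((a + b : ℕ) : ℝ)) (by
      intro n i j hi hj
      refine (hC (A n) i j hi hj).trans ?_
      have h2 : m1 (F1 Φ (A n)) ≤ B := hB ⟨n, rfl⟩
      have h3 : 0 < m1 (F1 Φ (A n)) := lt_of_lt_of_le one_pos
        (I1_one_le_m1 (F1_ne_zero Φ h hE (A n) ⟨i, hi⟩))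
      have h4 := Real.log_le_log h3 h2
      have h5 := div_le_div_of_nonneg_right h4 hm.le
      linarith)
  have hl := tuple_limit Φ h hE R hR (hyperfilter ℕ) e he A hA hrel
  exact ⟨k', hk', R, hR, tendsto_nhds_unique (hlim1.mono_left I2_hyper_le) hl⟩

end

end Pool.Agent.W5h6.HS
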