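import Pool.Agent.H2.L.R_pool_sql_team_seeded_9f66d723.W5h6.HS.Alg

/-! # Values of bihomogeneous forms at tuples of polynomials and their reciprocals -/

set_option autoImplicit false

namespace Pool.Agent.W5h6.HS

open Polynomial Filter MeasureTheory Topology Pool.Agent.H261R2.CM
open scoped ComplexConjugate

noncomputable section

/-- value of a form at `(x, conj x)` -/
def phi {ι : Type} (Φ : MvPolynomial (ι ⊕ ι) ℤ) (x : ι → ℂ) : ℂ :=
  MvPolynomial.eval (Sum.elim x fun i => conj (x i)) (MvPolynomial.map (Int.castRingHom ℂ) Φ)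

/-- bihomogeneous of bidegree `(a, b)` -/
def BiHom {ι : Type} [Fintype ι] (Φ : MvPolynomial (ι ⊕ ι) ℤ) (a b : ℕ) : Prop :=
  ∀ s ∈ Φ.support, (∑ i, s (Sum.inl i) = a) ∧ ∑ i, s (Sum.inr i) = b

/-- no zero at `(x, conj x)`, `x ≠ 0` -/
def Ell {ι : Type} (Φ : MvPolynomial (ι ⊕ ι) ℤ) : Prop := ∀ x : ι → ℂ, x ≠ 0 → phi Φ x ≠ 0

variable {ι : Type} [Fintype ι]

theorem eval_scale (Φ : MvPolynomial (ι ⊕ ι) ℤ) {a b : ℕ} (h : BiHom Φ a b) (x y : ι → ℂ)
    (p q : ℂ) :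
    MvPolynomial.eval (Sum.elim (fun i => p * x i) fun i => q * y i)
      (MvPolynomial.map (Int.castRingHom ℂ) Φ) = p ^ a * q ^ b *
    MvPolynomial.eval (Sum.elim x y) (MvPolynomial.map (Int.castRingHom ℂ) Φ) := by
  rw [MvPolynomial.eval_map, MvPolynomial.eval_map, MvPolynomial.eval₂_eq', MvPolynomial.eval₂_eq',
    Finset.mul_sum]
  refine Finset.sum_congr rfl fun s hs => ?_
  obtain ⟨h1, h2⟩ := h s hs
  rw [Fintype.prod_sum_type, Fintype.prod_sum_type]
  simp only [Sum.elim_inl, Sum.elim_inr, mul_pow, Finset.prod_mul_distrib,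
    Finset.prod_pow_eq_pow_sum, h1, h2]
  ring

theorem phi_scale (Φ : MvPolynomial (ι ⊕ ι) ℤ) {a b : ℕ} (h : BiHom Φ a b) (x : ι → ℂ) (q : ℂ) :
    ‖phi Φ (fun i => q * x i)‖ = ‖q‖ ^ (a + b) * ‖phi Φ x‖ := by
  unfold phi
  have h1 : (fun i => conj (q * x i)) = fun i => conj q * conj (x i) := by
    funext i
    rw [map_mul]
  rw [h1, eval_scale Φ h, norm_mul, norm_mul, norm_pow, norm_pow, RCLike.norm_conj, pow_add]

omit [Fintype ι] in
theorem phi_cont (Φ : MvPolynomial (ι ⊕ ι) ℤ) : Continuous (phi Φ) := by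
  unfold phi
  refine (MvPolynomial.continuous_eval _).comp ?_
  refine continuous_pi fun i => ?_
  rcases i with i | i
  · simpa using continuous_apply i
  · exact Complex.continuous_conj.comp (continuous_apply i)

theorem phi_lower [Nonempty ι] (Φ : MvPolynomial (ι ⊕ ι) ℤ) {a b : ℕ} (h : BiHom Φ a b)
    (hE : Ell Φ) : ∃ c : ℝ, 0 < c ∧ ∀ x : ι → ℂ, c * ‖x‖ ^ (a + b) ≤ ‖phi Φ x‖ := by
  have hcomp : IsCompact (Metric.sphere (0 : ι → ℂ) 1) := isCompact_sphere 0 1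
  have hne : (Metric.sphere (0 : ι → ℂ) 1).Nonempty := by
    refine ⟨fun _ => 1, ?_⟩
    simp
  obtain ⟨x0, hx0, hmin⟩ := hcomp.exists_isMinOn hne (phi_cont Φ).norm.continuousOn
  have hx0' : ‖x0‖ = 1 := by simpa using hx0
  have hx00 : x0 ≠ 0 := by
    rintro rfl
    simp at hx0'
  refine ⟨‖phi Φ x0‖ / 2, by have := norm_pos_iff.mpr (hE x0 hx00); linarith, fun x => ?_⟩
  by_cases hx : x = 0
  · subst hx
    by_cases hab : a + b = 0
    · have h1 : phi Φ (fun i => (0 : ℂ) * x0 i) = phi Φ 0 := by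
        congr 1
        funext i
        simp
      have h2 := phi_scale Φ h x0 0
      rw [h1, hab] at h2
      rw [hab]
      have := norm_nonneg (phi Φ x0)
      simp only [pow_zero, mul_one, one_mul] at h2 ⊢
      rw [h2]
      linarith
    · rw [norm_zero, zero_pow hab, mul_zero]
      exact norm_nonneg _
  · have hnx : 0 < ‖x‖ := norm_pos_iff.mpr hx
    set y : ι → ℂ := fun i => ((‖x‖⁻¹ : ℝ) : ℂ) * x i with hy
    have hyn : ‖y‖ = 1 := by
      have : y = ((‖x‖⁻¹ : ℝ) : ℂ) • x := by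
        funext i
        simp [hy]
      rw [this, norm_smul, Complex.norm_real, norm_inv, norm_norm, inv_mul_cancel₀ hnx.ne']
    have h1 : ‖phi Φ x0‖ ≤ ‖phi Φ y‖ := hmin (by simpa using hyn)
    have h2 : x = fun i => ((‖x‖ : ℝ) : ℂ) * y i := by
      funext i
      simp only [hy]
      rw [← mul_assoc, ← Complex.ofReal_mul, mul_inv_cancel₀ hnx.ne']
      simp
    have h3 := phi_scale Φ h y ((‖x‖ : ℝ) : ℂ)
    rw [← h2, Complex.norm_real, norm_norm] at h3
    rw [h3]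
    have h4 : 0 ≤ ‖x‖ ^ (a + b) := by positivity
    have h5 := norm_nonneg (phi Φ x0)
    nlinarith

/-! ### one variable -/

theorem ev1_reflect (N : ℕ) (A : ℤ[X]) (hA : A.natDegree ≤ N) (t : ℝ) :
    ev1 (A.reflect N) t = ez t ^ N * conj (ev1 A t) := by
  have hz : ez t ≠ 0 := by
    have := D_norm_ez t
    intro h
    rw [h, norm_zero] at this
    exact zero_ne_one this
  have hinv : (ez t)⁻¹ = conj (ez t) := by
    rw [Complex.inv_def, Complex.normSq_eq_norm_sq, D_norm_ez]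
    simp
  have h1 : ev1 A t = (toC A).sum fun n a => a * ez t ^ n := by
    unfold ev1
    rw [Polynomial.eval_eq_sum]
  have h2 : toC (A.reflect N) = (toC A).reflect N := by
    unfold toC
    rw [Polynomial.reflect_map]
  have hdeg : (toC A).natDegree ≤ N := by
    unfold toC
    exact (Polynomial.natDegree_map_le).trans hA
  unfold ev1
  rw [h2, Polynomial.eval_eq_sum_range' (Nat.lt_succ_of_le
    ((Polynomial.natDegree_reflect_le).trans (max_le le_rfl hdeg)))]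
  rw [Polynomial.eval_eq_sum_range' (Nat.lt_succ_of_le hdeg), map_sum, Finset.mul_sum,
    ← Finset.sum_range_reflect]
  refine Finset.sum_congr rfl fun j hj => ?_
  have hj' : j ≤ N := Nat.lt_succ_iff.mp (Finset.mem_range.mp hj)
  have h4 : N + 1 - 1 - j = N - j := by omega
  rw [h4, Polynomial.coeff_reflect, Polynomial.revAt_le (by omega : N - j ≤ N)]
  have h5 : N - (N - j) = j := by omega
  rw [h5, map_mul, map_pow, ← hinv]
  have h6 : conj ((toC A).coeff j) = (toC A).coeff j := by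
    unfold toC
    rw [Polynomial.coeff_map]
    simp
  rw [h6]
  have h7 : ez t ^ N = ez t ^ (N - j) * ez t ^ j := by
    rw [← pow_add]
    congr 1
    omega
  rw [h7, inv_pow]
  have h8 : ez t ^ j ≠ 0 := pow_ne_zero _ hz
  field_simp

/-- the polynomial `X ^ (N b) Φ(A(X), A(1/X))` -/
def F1 (Φ : MvPolynomial (ι ⊕ ι) ℤ) (A : ι → ℤ[X]) : ℤ[X] :=
  MvPolynomial.aeval (Sum.elim A fun i =>
    (A i).reflect (Finset.univ.sup fun i => (A i).natDegree)) Φ

theorem norm_F1 (Φ : MvPolynomial (ι ⊕ ι) ℤ) {a b : ℕ} (h : BiHom Φ a b) (A : ι → ℤ[X]) (t : ℝ) :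
    ‖ev1 (F1 Φ A) t‖ = ‖phi Φ fun i => ev1 (A i) t‖ := by
  set N := Finset.univ.sup fun i => (A i).natDegree with hN
  have h1 : ev1 (F1 Φ A) t = MvPolynomial.eval (Sum.elim (fun i => (1 : ℂ) * ev1 (A i) t)
      fun i => ez t ^ N * conj (ev1 (A i) t)) (MvPolynomial.map (Int.castRingHom ℂ) Φ) := by
    have h2 : ∀ i, ez t ^ N * conj (ev1 (A i) t) = ev1 ((A i).reflect N) t := fun i =>
      (ev1_reflect N (A i) (Finset.le_sup (f := fun i => (A i).natDegree) (Finset.mem_univ i)) t).symm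
    simp only [h2, one_mul]
    have h3 : ((Polynomial.evalRingHom (ez t)).comp (Polynomial.mapRingHom (Int.castRingHom ℂ))).comp
        ((MvPolynomial.aeval (Sum.elim A fun i => (A i).reflect N) :
          MvPolynomial (ι ⊕ ι) ℤ →ₐ[ℤ] ℤ[X]) : MvPolynomial (ι ⊕ ι) ℤ →+* ℤ[X]) =
        (MvPolynomial.eval (Sum.elim (fun i => ev1 (A i) t) fun i => ev1 ((A i).reflect N) t)).comp
          (MvPolynomial.map (Int.castRingHom ℂ)) := by
      apply MvPolynomial.ringHom_ext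
      · intro r
        simp
      · intro i
        rcases i with i | i
        · simp [ev1, toC]
        · simp [ev1, toC]
    exact DFunLike.congr_fun h3 Φ
  rw [h1, eval_scale Φ h]
  unfold phi
  rw [norm_mul, norm_mul, norm_pow, norm_pow, norm_pow, D_norm_ez]
  simp

theorem m1_congr {A B : ℤ[X]} (hA : A ≠ 0) (hB : B ≠ 0) (h : ∀ t, ‖ev1 A t‖ = ‖ev1 B t‖) :
    m1 A = m1 B := by
  have h1 : Real.log (m1 A) = Real.log (m1 B) := by
    rw [D_log_m1, D_log_m1]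
    simp only [h]
  exact Real.log_injOn_pos (Set.mem_Ioi.mpr (lt_of_lt_of_le one_pos (I1_one_le_m1 hA)))
    (Set.mem_Ioi.mpr (lt_of_lt_of_le one_pos (I1_one_le_m1 hB))) h1

theorem F1_ne_zero (Φ : MvPolynomial (ι ⊕ ι) ℤ) {a b : ℕ} (h : BiHom Φ a b) (hE : Ell Φ)
    (A : ι → ℤ[X]) (hA : ∃ i, A i ≠ 0) : F1 Φ A ≠ 0 := by
  obtain ⟨i, hi⟩ := hA
  obtain ⟨t, ht⟩ := (D_ae_ne (A i) hi).exists
  intro h0
  have h1 := norm_F1 Φ h A t
  rw [h0] at h1
  have h2 : ev1 (0 : ℤ[X]) t = 0 := by simp [ev1, toC]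
  rw [h2, norm_zero] at h1
  have h3 : (fun i => ev1 (A i) t) ≠ 0 := by
    intro h4
    exact ht (congrFun h4 i)
  exact hE _ h3 (norm_eq_zero.mp h1.symm)

theorem m1_F1_mul (Φ : MvPolynomial (ι ⊕ ι) ℤ) {a b : ℕ} (h : BiHom Φ a b) (hE : Ell Φ)
    (A B : ι → ℤ[X]) (hA : ∃ i, A i ≠ 0) (Q : ℤ[X]) (hQ : Q ≠ 0) (hB : ∀ i, B i = Q * A i) :
    m1 (F1 Φ B) = m1 Q ^ (a + b) * m1 (F1 Φ A) := by
  have hB' : ∃ i, B i ≠ 0 := by
    obtain ⟨i, hi⟩ := hA
    exact ⟨i, by rw [hB i]; exact mul_ne_zero hQ hi⟩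
  have h1 : m1 (F1 Φ B) = m1 (Q ^ (a + b) * F1 Φ A) := by
    refine m1_congr (F1_ne_zero Φ h hE B hB')
      (mul_ne_zero (pow_ne_zero _ hQ) (F1_ne_zero Φ h hE A hA)) fun t => ?_
    rw [norm_F1 Φ h, I1_ev1_mul, norm_mul, norm_F1 Φ h]
    have h2 : (fun i => ev1 (B i) t) = fun i => ev1 Q t * ev1 (A i) t := by
      funext i
      rw [hB i, I1_ev1_mul]
    have h3 : ev1 (Q ^ (a + b)) t = ev1 Q t ^ (a + b) := by
      unfold ev1 toC
      rw [Polynomial.map_pow, Polynomial.eval_pow]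
    rw [h2, phi_scale Φ h, h3, norm_pow]
  rw [h1, I1_m1_mul]
  congr 1
  unfold m1 toC
  rw [Polynomial.map_pow]
  induction (a + b) with
  | zero => simp
  | succ n ih => rw [pow_succ, Polynomial.mahlerMeasure_mul, ih, pow_succ]

/-! ### several variables -/

/-- `z ^ d P(1/z)` -/
def rv {k : ℕ} (d : Fin k → ℕ) (P : MvPolynomial (Fin k) ℤ) : MvPolynomial (Fin k) ℤ :=
  ∑ s ∈ P.support, MvPolynomial.monomial (Finsupp.equivFunOnFinite.symm fun i => d i - s i)
    (P.coeff s)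

theorem tv_rv {k : ℕ} (d : Fin k → ℕ) (P : MvPolynomial (Fin k) ℤ)
    (hd : ∀ i, P.degreeOf i ≤ d i) (t : Fin k → ℝ) :
    tv (rv d P) t = (∏ i, ez (t i) ^ d i) * conj (tv P t) := by
  have hinv : ∀ i, conj (ez (t i)) = (ez (t i))⁻¹ := by
    intro i
    rw [Complex.inv_def, Complex.normSq_eq_norm_sq, D_norm_ez]
    simp
  have hz : ∀ i, ez (t i) ≠ 0 := by
    intro i h
    have := D_norm_ez (t i)
    rw [h, norm_zero] at this
    exact zero_ne_one this
  have hP : tv P t = ∑ s ∈ P.support, ((P.coeff s : ℤ) : ℂ) * ∏ i, ez (t i) ^ s i := by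
    unfold tv
    rw [MvPolynomial.eval_map, MvPolynomial.eval₂_eq']
    rfl
  have hR : tv (rv d P) t = ∑ s ∈ P.support, ((P.coeff s : ℤ) : ℂ) * ∏ i, ez (t i) ^ (d i - s i) := by
    unfold tv rv
    rw [map_sum, map_sum]
    refine Finset.sum_congr rfl fun s _ => ?_
    rw [MvPolynomial.map_monomial, MvPolynomial.eval_monomial, Finsupp.prod_fintype _ _ (by simp)]
    rfl
  rw [hR, hP, map_sum, Finset.mul_sum]
  refine Finset.sum_congr rfl fun s hs => ?_
  rw [map_mul, map_prod, map_intCast]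
  rw [mul_left_comm, ← Finset.prod_mul_distrib]
  congr 1
  refine Finset.prod_congr rfl fun i _ => ?_
  rw [map_pow, hinv]
  have h1 : s i ≤ d i := (MvPolynomial.le_degreeOf_of_mem_support i hs).trans (hd i)
  have h2 : ez (t i) ^ d i = ez (t i) ^ (d i - s i) * ez (t i) ^ s i := by
    rw [← pow_add]
    congr 1
    omega
  have h3 : ez (t i) ^ s i ≠ 0 := pow_ne_zero _ (hz i)
  rw [h2, inv_pow]
  field_simp

/-- the polynomial `z ^ (d b) Φ(P(z), P(1/z))` -/
def Fk {k : ℕ} (Φ : MvPolynomial (ι ⊕ ι) ℤ) (P : ι → MvPolynomial (Fin k) ℤ) :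
    MvPolynomial (Fin k) ℤ :=
  MvPolynomial.aeval (Sum.elim P fun i =>
    rv (fun j => Finset.univ.sup fun i => (P i).degreeOf j) (P i)) Φ

theorem norm_Fk {k : ℕ} (Φ : MvPolynomial (ι ⊕ ι) ℤ) {a b : ℕ} (h : BiHom Φ a b)
    (P : ι → MvPolynomial (Fin k) ℤ) (t : Fin k → ℝ) :
    ‖tv (Fk Φ P) t‖ = ‖phi Φ fun i => tv (P i) t‖ := by
  set d : Fin k → ℕ := fun j => Finset.univ.sup fun i => (P i).degreeOf j with hd
  have h1 : tv (Fk Φ P) t = MvPolynomial.eval (Sum.elim (fun i => (1 : ℂ) * tv (P i) t)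
      fun i => (∏ j, ez (t j) ^ d j) * conj (tv (P i) t)) (MvPolynomial.map (Int.castRingHom ℂ) Φ) := by
    have h2 : ∀ i, (∏ j, ez (t j) ^ d j) * conj (tv (P i) t) = tv (rv d (P i)) t := fun i =>
      (tv_rv d (P i) (fun j => Finset.le_sup (f := fun i => (P i).degreeOf j)
        (Finset.mem_univ i)) t).symm
    simp only [h2, one_mul]
    have h3 : ((MvPolynomial.eval (fun j : Fin k =>
        Complex.exp (2 * (Real.pi : ℂ) * Complex.I * ((t j : ℝ) : ℂ)))).comp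
          (MvPolynomial.map (Int.castRingHom ℂ))).comp
        ((MvPolynomial.aeval (Sum.elim P fun i => rv d (P i)) :
          MvPolynomial (ι ⊕ ι) ℤ →ₐ[ℤ] MvPolynomial (Fin k) ℤ) :
          MvPolynomial (ι ⊕ ι) ℤ →+* MvPolynomial (Fin k) ℤ) =
        (MvPolynomial.eval (Sum.elim (fun i => tv (P i) t) fun i => tv (rv d (P i)) t)).comp
          (MvPolynomial.map (Int.castRingHom ℂ)) := by
      apply MvPolynomial.ringHom_ext
      · intro r
        simp
      · intro i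
        rcases i with i | i
        · simp [tv]
        · simp [tv]
    exact DFunLike.congr_fun h3 Φ
  rw [h1, eval_scale Φ h]
  unfold phi
  rw [norm_mul, norm_mul, norm_pow, norm_pow, norm_prod]
  simp only [norm_pow, D_norm_ez]
  simp

theorem tv_zero {k : ℕ} (t : Fin k → ℝ) : tv (0 : MvPolynomial (Fin k) ℤ) t = 0 := by
  simp [tv]

theorem Fk_ne_zero {k : ℕ} (Φ : MvPolynomial (ι ⊕ ι) ℤ) {a b : ℕ} (h : BiHom Φ a b) (hE : Ell Φ)
    (P : ι → MvPolynomial (Fin k) ℤ) (hP : ∃ i, P i ≠ 0) : Fk Φ P ≠ 0 := by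
  obtain ⟨i, hi⟩ := hP
  have h1 := F_zero_null hi
  have h2 : ∃ t, tv (P i) t ≠ 0 := by
    by_contra hcon
    push Not at hcon
    have h3 := h1.and (Eventually.of_forall hcon)
    have h4 : ∀ᵐ t ∂(volume.restrict (Set.Icc (0 : Fin k → ℝ) 1)), False :=
      h3.mono fun t ht => ht.1 ht.2
    rw [ae_iff] at h4
    simp only [not_false_eq_true] at h4
    have h5 : (volume.restrict (Set.Icc (0 : Fin k → ℝ) 1)) Set.univ = 0 := by
      rw [← h4]
      congr 1
    rw [Measure.restrict_apply_univ, Real.volume_Icc_pi] at h5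
    simp at h5
  obtain ⟨t, ht⟩ := h2
  intro h0
  have h3 := norm_Fk Φ h P t
  rw [h0, tv_zero, norm_zero] at h3
  exact hE _ (fun h4 => ht (congrFun h4 i)) (norm_eq_zero.mp h3.symm)

theorem m1_spec_Fk {k : ℕ} (Φ : MvPolynomial (ι ⊕ ι) ℤ) {a b : ℕ} (h : BiHom Φ a b) (hE : Ell Φ)
    (P : ι → MvPolynomial (Fin k) ℤ) (e : Fin k → ℕ) (hP : ∃ i, spec e (P i) ≠ 0) :
    m1 (spec e (Fk Φ P)) = m1 (F1 Φ fun i => spec e (P i)) := by
  have hnorm : ∀ t, ‖ev1 (spec e (Fk Φ P)) t‖ = ‖ev1 (F1 Φ fun i => spec e (P i)) t‖ := by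
    intro t
    rw [F_ev1, norm_Fk Φ h, norm_F1 Φ h]
    simp only [F_ev1]
  have h1 := F1_ne_zero Φ h hE _ hP
  refine m1_congr ?_ h1 hnorm
  intro h0
  obtain ⟨t, ht⟩ := (D_ae_ne _ h1).exists
  have h2 := hnorm t
  rw [h0] at h2
  have h3 : ev1 (0 : ℤ[X]) t = 0 := by simp [ev1, toC]
  rw [h3, norm_zero] at h2
  exact ht (norm_eq_zero.mp h2.symm)

end

end Pool.Agent.W5h6.HS
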