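import Pool.Agent.H2.L.R_pool_sql_team_seeded_9f66d723.W5h6.HS.Sq

/-! # Gram determinants -/

set_option autoImplicit false

namespace Pool.Agent.W5h6.HS

open Polynomial Filter MeasureTheory Topology Pool.Agent.H261R2.CM Pool.Agent.TH845.KN Matrix
open scoped ComplexConjugate

noncomputable section

section cb

variable {n m : ℕ}

theorem det_mul_expand {R : Type*} [CommRing R] (A : Matrix (Fin n) (Fin m) R)
    (B : Matrix (Fin m) (Fin n) R) :
    (A * B).det = ∑ I : Fin n → Fin m, (∏ a, A a (I a)) * (B.submatrix I id).det := by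
  have h1 : (A * B).det = Matrix.detRowAlternating (fun a => ∑ i, A a i • B i) := by
    change Matrix.detRowAlternating (A * B) = _
    congr 1
    funext a b
    simp [Matrix.mul_apply, Finset.sum_apply]
  rw [h1]
  have h2 := (Matrix.detRowAlternating (n := Fin n) (R := R)).toMultilinearMap.map_sum
    (fun (a : Fin n) (i : Fin m) => A a i • B i)
  refine h2.trans ?_
  refine Finset.sum_congr rfl fun I _ => ?_
  have h3 := (Matrix.detRowAlternating (n := Fin n) (R := R)).toMultilinearMap.map_smul_univ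
    (fun a => A a (I a)) (fun a => B (I a))
  refine h3.trans ?_
  rfl

/-- sums over all maps which vanish at the maps that are not injective -/
theorem sum_maps {M : Type*} [AddCommMonoid M] (g : (Fin n → Fin m) → M)
    (h0 : ∀ I, ¬ Function.Injective I → g I = 0) :
    (∑ I, g I) = ∑ J : {J : Fin n → Fin m // StrictMono J}, ∑ σ : Equiv.Perm (Fin n),
      g (J.1 ∘ σ) := by
  classical
  rw [← Finset.sum_product' (s := (Finset.univ : Finset {J : Fin n → Fin m // StrictMono J}))
    (t := (Finset.univ : Finset (Equiv.Perm (Fin n)))) (f := fun J σ => g (J.1 ∘ σ))]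
  have h1 : (∑ I, g I) = ∑ I ∈ Finset.univ.filter (fun I : Fin n → Fin m => Function.Injective I), g I := by
    symm
    refine Finset.sum_subset (Finset.subset_univ _) fun I _ hI => h0 I ?_
    intro h
    exact hI (Finset.mem_filter.mpr ⟨Finset.mem_univ I, h⟩)
  rw [h1]
  symm
  refine Finset.sum_bij (fun p _ => p.1.1 ∘ p.2) ?_ ?_ ?_ ?_
  · intro p _
    exact Finset.mem_filter.mpr ⟨Finset.mem_univ _, p.1.2.injective.comp p.2.injective⟩
  · rintro ⟨⟨J1, hJ1⟩, σ1⟩ _ ⟨⟨J2, hJ2⟩, σ2⟩ _ h
    simp only at h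
    have hr : Set.range J1 = Set.range J2 := by
      have h2 : Set.range (J1 ∘ σ1) = Set.range J1 := σ1.surjective.range_comp J1
      have h3 : Set.range (J2 ∘ σ2) = Set.range J2 := σ2.surjective.range_comp J2
      rw [← h2, ← h3, h]
    have hJ : J1 = J2 := (StrictMono.range_inj hJ1 hJ2).mp hr
    subst hJ
    have hσ : σ1 = σ2 := by
      ext x
      have := congrFun h x
      simp only [Function.comp_apply] at this
      exact congrArg Fin.val (hJ1.injective this)
    subst hσ
    rfl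
  · intro I hI
    have hinj : Function.Injective I := (Finset.mem_filter.mp hI).2
    have hmono : Monotone (I ∘ Tuple.sort I) := Tuple.monotone_sort I
    have hsm : StrictMono (I ∘ Tuple.sort I) :=
      hmono.strictMono_of_injective (hinj.comp (Tuple.sort I).injective)
    refine ⟨(⟨I ∘ Tuple.sort I, hsm⟩, (Tuple.sort I)⁻¹), Finset.mem_univ _, ?_⟩
    funext x
    simp [Function.comp]
  · intro p _
    rfl

/-- Cauchy-Binet -/
theorem gram_det (A : Matrix (Fin n) (Fin m) ℂ) :
    (A * Aᴴ).det = ((∑ J : {J : Fin n → Fin m // StrictMono J}, ‖(A.submatrix id J.1).det‖ ^ 2 : ℝ) : ℂ) := by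
  classical
  rw [det_mul_expand]
  have hz : ∀ I : Fin n → Fin m, ¬ Function.Injective I →
      (∏ a, A a (I a)) * (Aᴴ.submatrix I id).det = 0 := by
    intro I hI
    rw [Function.Injective] at hI
    push Not at hI
    obtain ⟨i, j, hij, hne⟩ := hI
    rw [Matrix.det_zero_of_row_eq hne, mul_zero]
    ext b
    simp [hij]
  rw [sum_maps _ hz]
  push_cast
  refine Finset.sum_congr rfl fun J _ => ?_
  have h1 : ∀ σ : Equiv.Perm (Fin n), (∏ a, A a ((J.1 ∘ σ) a)) * (Aᴴ.submatrix (J.1 ∘ σ) id).det =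
      ((((Equiv.Perm.sign σ : ℤˣ) : ℤ) : ℂ) * ∏ a, (A.submatrix id J.1) a (σ a)) *
        (Aᴴ.submatrix J.1 id).det := by
    intro σ
    have h2 : Aᴴ.submatrix (J.1 ∘ σ) id = (Aᴴ.submatrix J.1 id).submatrix σ id := by
      ext a b
      rfl
    rw [h2, Matrix.det_permute]
    simp only [Function.comp_apply, Matrix.submatrix_apply, id_eq]
    ring
  rw [Finset.sum_congr rfl fun σ _ => h1 σ, ← Finset.sum_mul]
  have h3 : (∑ σ : Equiv.Perm (Fin n), ((((Equiv.Perm.sign σ : ℤˣ) : ℤ) : ℂ) *
      ∏ a, (A.submatrix id J.1) a (σ a))) = (A.submatrix id J.1).det := by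
    rw [← Matrix.det_transpose, Matrix.det_apply']
    rfl
  have h4 : (Aᴴ.submatrix J.1 id).det = conj ((A.submatrix id J.1).det) := by
    have h5 : Aᴴ.submatrix J.1 id = (A.submatrix id J.1)ᴴ := by
      ext a b
      rfl
    rw [h5, Matrix.det_conjTranspose]
    rfl
  rw [h3, h4, Complex.mul_conj, Complex.normSq_eq_norm_sq]
  push_cast
  rfl

end cb

/-- evaluation at a point of the torus as a homomorphism -/
def tvHom {k : ℕ} (t : Fin k → ℝ) : MvPolynomial (Fin k) ℤ →+* ℂ :=
  (MvPolynomial.eval (fun j : Fin k => Complex.exp (2 * (Real.pi : ℂ) * Complex.I * ((t j : ℝ) : ℂ)))).comp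
    (MvPolynomial.map (Int.castRingHom ℂ))

theorem tvHom_apply {k : ℕ} (t : Fin k → ℝ) (P : MvPolynomial (Fin k) ℤ) : tvHom t P = tv P t := rfl

theorem mem_SQ_of_fintype {ι : Type} [Fintype ι] {k : ℕ} (hk : 1 ≤ k)
    (P : ι → MvPolynomial (Fin k) ℤ) (hP : ∀ D, (∀ i, D ∣ P i) → mM D = 1) :
    mM (Fk (sq ι) P) ∈ SQ := by
  obtain ⟨Q, hQ, h1, _, _⟩ := reduce_ess (sq ι) biHom_sq ell_sq P hP
  rw [h1]
  set e := Fintype.equivFin ι
  refine ⟨k, hk, Fintype.card ι, fun j => Q (e.symm j), ?_, ?_⟩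
  · intro D hD
    refine hQ D fun i => ?_
    have := hD (e i)
    simpa using this
  · refine mM_congr fun t => ?_
    rw [norm_tv_sq, norm_tv_sq]
    exact (Equiv.sum_comp e.symm fun i => ‖tv (Q i) t‖ ^ 2).symm

/-- Gram determinants. -/
theorem gram_mem {k n m : ℕ} (hk : 1 ≤ k) (D : Matrix (Fin n) (Fin m) (MvPolynomial (Fin k) ℤ))
    (hD : ∀ E : MvPolynomial (Fin k) ℤ, (∀ J : Fin n → Fin m, StrictMono J →
      E ∣ (D.submatrix id J).det) → mM E = 1) :
    Real.exp (∫ t in Set.Icc (0 : Fin k → ℝ) 1,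
      Real.log ‖((D.map fun P => tv P t) * (D.map fun P => tv P t)ᴴ).det‖) ∈ SQ := by
  have h1 := mem_SQ_of_fintype hk
    (fun J : {J : Fin n → Fin m // StrictMono J} => (D.submatrix id J.1).det)
    (fun E hE => hD E fun J hJ => hE ⟨J, hJ⟩)
  have h2 : mM (Fk (sq {J : Fin n → Fin m // StrictMono J})
      (fun J => (D.submatrix id J.1).det)) = Real.exp (∫ t in Set.Icc (0 : Fin k → ℝ) 1,
      Real.log ‖((D.map fun P => tv P t) * (D.map fun P => tv P t)ᴴ).det‖) := by
    unfold mM
    congr 1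
    refine integral_congr_ae (Eventually.of_forall fun t => ?_)
    simp only
    rw [norm_tv_sq, gram_det, Complex.norm_real, Real.norm_of_nonneg
      (Finset.sum_nonneg fun _ _ => by positivity)]
    congr 1
    refine Finset.sum_congr rfl fun J _ => ?_
    congr 2
    rw [← tvHom_apply, RingHom.map_det]
    rfl
  rwa [h2] at h1

end

end Pool.Agent.W5h6.HS
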